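import Pool.Agent.Lib.E1.OBlue

/-! Finitely many forms of one degree generate the ideals of finitely many subvarieties. -/

open AlgebraicGeometry CategoryTheory Order IsLocalRing
open Pool.Agent.Lib.PK1 Pool.Agent.Lib.PK1.Out Pool.Agent.Lib.MP_e39d36_ag
open scoped Classical

set_option linter.unusedSectionVars false
set_option linter.style.haveILetI false
set_option linter.unusedVariables false

noncomputable section

namespace Pool.Agent.Lib.E1

namespace OGEN

section core

open MvPolynomial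

variable {K L ι : Type} [Field K] [Field L] [Algebra K L] [Fintype ι] {y : ι → L}

theorem core {k : ι} (hk : y k ≠ 0) {T : Subring L} (hT : IsLoc T)
    (hc : (chart K y k).toSubring ≤ T) :
    ∃ (A : Finset (MvPolynomial ι K)) (dg : MvPolynomial ι K → ℕ),
      (∀ g ∈ A, g.IsHomogeneous (dg g)) ∧ ∀ z : Pt K ι, On y z →
      ∀ (m : ℕ) (Γ : Type) (G : Γ → MvPolynomial ι K), Hm m G → (∀ g ∈ A, dg g ≤ m) →
        (∀ a, G a = 0 ∨ ∃ g ∈ A, ∃ j, G a = g * X j ^ (m - dg g)) →
        (∀ g ∈ A, ∃ a, G a = g * X (ix z) ^ (m - dg g)) →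
        (Zr G z ↔ O y z ≤ T) ∧ ∀ w, w ∈ Submodule.span (O y z) (Set.range (lcs y z m G)) ↔
          w ∈ O y z ∧ (O y z ≤ T → ¬Un T w) := by
  let S : Set (MvPolynomial ι K) := {r | ∃ d, r.IsHomogeneous d ∧ ¬Un T (aeval y r / y k ^ d)}
  obtain ⟨A, hA, hs⟩ := (Submodule.fg_span_iff_fg_span_finset_subset S).1
    (IsNoetherian.noetherian (Submodule.span (MvPolynomial ι K) S))
  have h0 : ∀ g : MvPolynomial ι K, ∃ d, g ∈ A →
      g.IsHomogeneous d ∧ ¬Un T (aeval y g / y k ^ d) := fun g => by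
    by_cases hg : g ∈ A
    · exact (hA hg).imp fun _ h _ => h
    · exact ⟨0, fun h => absurd h hg⟩
  choose dg hdg using h0
  refine ⟨A, dg, fun g hg => (hdg g hg).1, fun z hz m Γ G hG hm h1 h2 => ?_⟩
  have hy := L11.y_ix hz
  have hlc : ∀ g ∈ A, ∀ j, lc y z m (g * X j ^ (m - dg g)) =
      lc y z (m - dg g) (X j ^ (m - dg g)) * lc y z (dg g) g := fun g hg j => by
    rw [mul_comm (lc _ _ _ _), ← L11.lc_mul, Nat.add_sub_cancel' (hm g hg)]
  have hB : ∀ r ∈ Submodule.span (MvPolynomial ι K) S, aeval (fun j => y j / y (ix z)) r ∈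
      Submodule.span (O y z) (Set.range (lcs y z m G)) := fun r hr => by
    rw [hs] at hr
    induction hr using Submodule.span_induction with
    | mem g hg =>
      obtain ⟨a, ha⟩ := h2 g hg
      refine Submodule.subset_span ⟨a, ?_⟩
      rw [lcs, ha, hlc g hg, L11.aeval_div (hdg g hg).1]
      simp [lc, hy]
    | zero => simp
    | add r s _ _ h h' => rw [map_add]; exact add_mem h h'
    | smul c r _ h =>
      rw [smul_eq_mul, map_mul]
      exact mul_mem_sub (L11.chart_le hz (L11.rep_ix z) (L11.mem_chart.2 ⟨c, rfl⟩)) h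
  have hO : ∀ w ∈ Submodule.span (O y z) (Set.range (lcs y z m G)), w ∈ O y z := fun w hw => by
    induction hw using Submodule.span_induction with
    | mem g hg =>
      obtain ⟨a, rfl⟩ := hg
      exact L11.lc_mem hz (hG a)
    | zero => exact zero_mem _
    | add r s _ _ h h' => exact add_mem h h'
    | smul c r _ h => exact mul_mem c.2 h
  have hD : Zr G z → O y z ≤ T := fun hZ w hw => by
    have h3 : ∀ r ∈ Submodule.span (MvPolynomial ι K) S, eval z.rep r = 0 := fun r hr => by
      rw [hs] at hr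
      induction hr using Submodule.span_induction with
      | mem g hg =>
        obtain ⟨a, ha⟩ := h2 g hg
        simpa [ha, L11.rep_ix z] using hZ a
      | zero => simp
      | add r s _ _ h h' => rw [map_add, h, h', add_zero]
      | smul c r _ h => rw [smul_eq_mul, map_mul, h, mul_zero]
    obtain ⟨d, r, s, hr, hs', h4, h5⟩ := hw
    have h6 : Un T (aeval y s / y k ^ d) := by
      by_contra h6
      exact h4 (h3 s (Submodule.subset_span ⟨d, hs', h6⟩))
    refine h6.mem_of_mul ?_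
    rw [mul_comm, ← mul_div_assoc, h5]
    exact hc (L11.divX_chart hr k)
  by_cases hle : O y z ≤ T
  · have hu : Un T (y k / y (ix z)) := ⟨div_ne_zero hk hy, hle (L11.ratio_mem hz (L11.rep_ix z) k),
      by rw [inv_div]; simpa using hc (L11.divX_chart (isHomogeneous_X K (ix z)) k)⟩
    have hC : ∀ (d : ℕ) (r : MvPolynomial ι K), Un T (lc y z d r) ↔ Un T (aeval y r / y k ^ d) :=
      fun d r => by
        have e : lc y z d r = aeval y r / y k ^ d * (y k / y (ix z)) ^ d := by
          rw [lc, div_pow, div_mul_div_cancel₀ (pow_ne_zero _ hk)]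
        refine ⟨fun h => ?_, fun h => e ▸ h.mul (hu.pow d)⟩
        have := h.div (hu.pow d)
        rwa [e, mul_div_cancel_right₀ _ (hu.pow d).1] at this
    have hN : ∀ w ∈ Submodule.span (O y z) (Set.range (lcs y z m G)), ¬Un T w := fun w hw => by
      induction hw using Submodule.span_induction with
      | mem g hg =>
        obtain ⟨a, rfl⟩ := hg
        rcases h1 a with h | ⟨g, hg, j, h⟩
        · rw [lcs, h]
          exact fun h => h.1 (by simp [lc])
        · rw [lcs, h, hlc g hg]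
          exact fun h => (hdg g hg).2 ((hC _ _).1 (h.of_mul'
            (hle (L11.lc_mem hz (L11.hom_X_pow _ _))) (hle (L11.lc_mem hz (hdg g hg).1))))
      | zero => exact fun h => h.1 rfl
      | add r s hr hs h h' =>
        exact fun h3 => (hT.of_add (hle (hO r hr)) (hle (hO s hs)) h3).elim h h'
      | smul c r hr h => exact fun h3 => h (Un.of_mul' h3 (hle c.2) (hle (hO r hr)))
    refine ⟨⟨hD, fun _ a => ?_⟩, fun w => ⟨fun h => ⟨hO w h, fun _ => hN w h⟩, fun h => ?_⟩⟩
    · by_contra h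
      exact hN _ (Submodule.subset_span ⟨a, rfl⟩) (((L11.un_lc hz (hG a)).2 h).mono hle)
    · obtain ⟨⟨d, r, s, hr, hs', h4, h5⟩, h6⟩ := h
      have h7 := (L11.un_lc hz hs').2 h4
      have e : lc y z d r = w * lc y z d s := by rw [lc, lc, ← h5, mul_div_assoc]
      have h8 := hB r (Submodule.subset_span ⟨d, hr, fun h => h6 hle (by
        have := ((hC d r).2 h).div (h7.mono hle)
        rwa [e, mul_div_cancel_right₀ _ h7.1] at this)⟩)
      rw [L11.aeval_div hr] at h8
      have h9 := mul_mem_sub h7.2.2 h8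
      change _ * lc y z d r ∈ _ at h9
      rwa [e, mul_comm w, inv_mul_cancel_left₀ h7.1] at h9
  · refine ⟨⟨hD, fun h => absurd h hle⟩, fun w => ⟨fun h => ⟨hO w h, fun h' => absurd h' hle⟩,
      fun h => ?_⟩⟩
    obtain ⟨a, ha⟩ := not_forall.1 fun h => hle (hD h)
    have h7 := (L11.un_lc hz (hG a)).2 ha
    have h9 := mul_mem_sub (h7.div_mem h.1)
      (Submodule.subset_span (s := Set.range (lcs y z m G)) ⟨a, rfl⟩)
    rwa [lcs, div_mul_cancel₀ _ h7.1] at h9

end core

theorem mem_idl {X : Scheme.{0}} [IsIntegral X] {η x : X} {a : X.presheaf.stalk x} :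
    a ∈ Fin.idl η x ↔ (η ⤳ x → ¬Un (OX η) (algebraMap _ X.functionField a)) := by
  rw [Fin.idl, Ideal.mem_iInf]
  refine forall_congr' fun h => ?_
  have e : algebraMap _ X.functionField (X.presheaf.stalkSpecializes h a) =
      algebraMap _ X.functionField a :=
    congr($(X.presheaf.stalkSpecializes_comp ((genericPoint_spec X).specializes trivial) h) a)
  rw [Ideal.mem_comap, mem_maximalIdeal, mem_nonunits_iff, ← e, un_OX]

end OGEN

theorem stOGEN : St_OGEN := by
  intro K ι J _ _ _ _ X _ _ y M hg π D η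
  haveI := M.sep
  have h0 := fun i : J => (M.loc (η i)).choose_spec.elim fun h1 h2 =>
    OGEN.core h1 isLoc_of_isLocalRing h2.1
  choose A dg hA H using h0
  let m : ℕ := ∑ i, ∑ g ∈ A i, dg i g
  have hm : ∀ i, ∀ g ∈ A i, dg i g ≤ m := fun i g h =>
    (Finset.single_le_sum (f := dg i) (fun _ _ => Nat.zero_le _) h).trans
      (Finset.single_le_sum (f := fun i => ∑ g ∈ A i, dg i g) (fun _ _ => Nat.zero_le _)
        (Finset.mem_univ i))
  let G : J → (Σ i, A i) × ι → MvPolynomial ι K := fun i a =>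
    if a.1.1 = i then a.1.2.1 * MvPolynomial.X a.2 ^ (m - dg a.1.1 a.1.2.1) else 0
  have hG : ∀ i, Hm m (G i) := fun i a => by
    simp only [G]
    split_ifs
    · have := (hA _ _ a.1.2.2).mul (L11.hom_X_pow a.2 (m - dg a.1.1 a.1.2.1))
      rwa [Nat.add_sub_cancel' (hm _ _ a.1.2.2)] at this
    · exact MvPolynomial.isHomogeneous_zero _ _ _
  refine ⟨m, _, inferInstance, G, hG, fun i z hz => ?_⟩
  obtain ⟨h1, h2⟩ := H i z hz m _ (G i) (hG i) (hm i) (fun a => by
      obtain ⟨⟨i', g⟩, j⟩ := a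
      by_cases h : i' = i
      · subst h
        exact Or.inr ⟨g, g.2, j, if_pos rfl⟩
      · exact Or.inl (if_neg h))
    fun g hg => ⟨(⟨i, g, hg⟩, ix z), if_pos rfl⟩
  rw [← D.O z hz, OX_le_iff] at h1
  refine ⟨h1, fun w => (h2 w).trans ?_⟩
  rw [← D.O z hz, OX_le_iff]
  exact ⟨fun ⟨⟨a, ha⟩, h⟩ => ⟨a, OGEN.mem_idl.2 (ha ▸ h), ha⟩,
    fun ⟨a, h, ha⟩ => ⟨⟨a, ha⟩, ha ▸ OGEN.mem_idl.1 h⟩⟩

end Pool.Agent.Lib.E1
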