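import Pool.Agent.Lib.E1.OBlue
import Pool.Agent.Lib.PK1.Loc11

/-! Simple normal crossings in the model. -/

open AlgebraicGeometry CategoryTheory Order IsLocalRing
open Pool.Agent.Lib.PK1 Pool.Agent.Lib.PK1.Out

set_option linter.unusedSectionVars false
set_option linter.unusedVariables false

noncomputable section

namespace Pool.Agent.Lib.E1

namespace OSNC

variable {K ι : Type} [Field K] {X : Scheme.{0}} [IsIntegral X] [Algebra K X.functionField]
  {y : ι → X.functionField} {z : Pt K ι} {x : X} {w : X.functionField}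

lemma span_iff (h : OX x = O y z) (S : Set (X.presheaf.stalk x)) :
    w ∈ Submodule.span (O y z) (algebraMap _ X.functionField '' S) ↔
      ∃ a ∈ Ideal.span S, algebraMap _ X.functionField a = w := by
  constructor
  · intro hw
    induction hw using Submodule.span_induction with
    | mem w hw => obtain ⟨a, ha, rfl⟩ := hw; exact ⟨a, Ideal.subset_span ha, rfl⟩
    | zero => exact ⟨0, zero_mem _, map_zero _⟩
    | add u v _ _ hu hv =>
      obtain ⟨a, ha, rfl⟩ := hu
      obtain ⟨b, hb, rfl⟩ := hv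
      exact ⟨a + b, add_mem ha hb, map_add _ _ _⟩
    | smul c u _ hu =>
      obtain ⟨a, ha, rfl⟩ := hu
      obtain ⟨b, hb⟩ := h.ge c.2
      exact ⟨b * a, Ideal.mul_mem_left _ _ ha, by rw [map_mul, hb]; rfl⟩
  · rintro ⟨a, ha, rfl⟩
    induction ha using Submodule.span_induction with
    | mem a ha => exact Submodule.subset_span ⟨a, ha, rfl⟩
    | zero => simp
    | add a b _ _ ha hb => rw [map_add]; exact add_mem ha hb
    | smul c a _ ha =>
      rw [smul_eq_mul, map_mul]
      exact Submodule.smul_mem _ (⟨_, h.le ⟨c, rfl⟩⟩ : O y z) ha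

lemma mx_iff (hz : On y z) (h : OX x = O y z) :
    w ∈ Mx y z ↔ ∃ a ∈ maximalIdeal (X.presheaf.stalk x), algebraMap _ X.functionField a = w := by
  have key : ∀ a : X.presheaf.stalk x,
      a ∈ maximalIdeal _ ↔ algebraMap _ X.functionField a ∈ Mx y z := fun a => by
    rw [mem_maximalIdeal, mem_nonunits_iff, ← un_OX, h, L11.un_iff hz]
    exact ⟨fun h1 => by_contra fun h2 => h1 ⟨h.le ⟨a, rfl⟩, h2⟩, fun h1 h2 => h2.2 h1⟩
  refine ⟨fun hw => ?_, fun ⟨a, ha, h1⟩ => h1 ▸ (key a).1 ha⟩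
  obtain ⟨a, rfl⟩ := h.ge (L11.Mx_le hw)
  exact ⟨a, (key a).2 hw, rfl⟩

end OSNC

open OSNC Classical in
theorem stOSNC (hG : St_OGEN) (hL : St_LOC) (hI : St_IND) : St_OSNC := by
  intro K ι J _ _ _ _ X _ _ y M hg N hN π D η H
  choose s κ hs hκ using H
  have hmx : ∀ z (hz : On y z), Mx y z = Submodule.span (O y z)
      (Set.range fun j => algebraMap _ X.functionField (s (π z) (D.cl z hz) j)) := fun z hz => by
    ext w
    rw [mx_iff hz (D.O z hz), ← hs _ (D.cl z hz), ← span_iff (D.O z hz), ← Set.range_comp]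
    rfl
  have hV : Var K N y := ⟨hg, (M.loc (genericPoint X)).imp fun i h => h.1, hN,
    fun z hz => ⟨_, hmx z hz⟩⟩
  obtain ⟨m, Γ, _, G, hH, hZ⟩ := hG K ι J X y M hg π D η
  let t : J → Pt K ι → X.functionField := fun i z => if h : On y z ∧ η i ⤳ π z then
    algebraMap _ X.functionField (s (π z) (D.cl z h.1) (κ _ (D.cl z h.1) ⟨i, h.2⟩)) else 1
  have ht : ∀ i z, On y z → ∃ a, Fin.idl (η i) (π z) = Ideal.span {a} ∧
      algebraMap _ X.functionField a = t i z := fun i z hz => by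
    by_cases h : η i ⤳ π z
    · exact ⟨_, hκ _ (D.cl z hz) ⟨i, h⟩, by simp only [t, dif_pos (And.intro hz h)]⟩
    · exact ⟨1, by rw [Fin.idl, iInf_neg h, Ideal.span_singleton_one],
        by simp only [t, map_one, dif_neg fun h' : On y z ∧ η i ⤳ π z => h h'.2]⟩
  refine ⟨hV, m, Γ, inferInstance, G, t, ⟨hH, fun i z hz => ?_, fun z hz => ?_⟩,
    fun i z hz => ⟨(hZ i z hz).1, ht i z hz⟩⟩
  · obtain ⟨a, h1, h2⟩ := ht i z hz
    ext w
    rw [(hZ i z hz).2, h1, ← span_iff (D.O z hz), Set.image_singleton, h2]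
  · have h1 := hI.sub K _ ι y z _ _ _
      (fun i : {i // Zr (G i) z} => κ _ (D.cl z hz) ⟨i.1, (hZ i z hz).1.1 i.2⟩)
      (fun a b hab => Subtype.ext (Subtype.mk.inj ((κ _ (D.cl z hz)).injective hab)))
      ((hL.ind K _ ι N y hV z hz (Fin N) _ (by simp)).2 (hmx z hz))
    have h2 : (fun i : {i // Zr (G i) z} => t i z) = _ := funext fun i =>
      dif_pos (⟨hz, (hZ i z hz).1.1 i.2⟩ : On y z ∧ η i ⤳ π z)
    rw [h2]
    exact h1

end Pool.Agent.Lib.E1
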