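import Pool.Agent.Lib.E1.GLUE0
import Pool.Agent.Lib.E1.BERT
import Pool.Agent.Lib.E1.OALT
import Pool.Agent.Lib.E1.OCYC
import Pool.Agent.Lib.E1.OEXT
import Pool.Agent.Lib.E1.OFIN
import Pool.Agent.Lib.E1.OGEN
import Pool.Agent.Lib.E1.OMOD
import Pool.Agent.Lib.E1.OSNC

/-! Assembly of all blocks over the algebraic closure. -/

namespace Pool.Agent.Lib.E1

theorem all_SYM1 : St_SYM := all_SYM (stBERT stTAN stIND)

theorem all_E1 : Fin.StE1 :=
  stE1 all_SYM1 stOEXT stOMOD (stOSNC stOGEN stLOC stIND) (stOALT stOCYC)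

end Pool.Agent.Lib.E1
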