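import Pool.Agent.Lib.E1.PFIN
import Pool.Agent.Lib.E1.OEXT
import Pool.Agent.Lib.E1.LOC
import Pool.Agent.Lib.E1.IND
import Pool.Agent.Lib.E1.PPT
import Pool.Agent.Lib.E1.PVAR
import Pool.Agent.Lib.E1.PPI
import Pool.Agent.Lib.E1.PDIV
import Pool.Agent.Lib.E1.PLNK
import Pool.Agent.Lib.E1.PSTR
import Pool.Agent.Lib.E1.PCNT
import Pool.Agent.Lib.E1.PCEN
import Pool.Agent.Lib.PK1.EMB
import Pool.Agent.Lib.PK1.CONST
import Pool.Agent.Lib.PK1.LOC1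

/-! Schemes over a finite field: the blocks assembled. -/

namespace Pool.Agent.Lib.E1

theorem all_E2 (h : St_SYM) : Fin.StE2 :=
  stE2 h stOEXT stLOC stIND stPPT stPVAR stPPI (stPDIV stPPT stPPI PK1.stLOC1) stPLNK stPSTR
    (stPCNT stPPT (PK1.stEMB PK1.stCONST)) (stPCEN stPPT)

end Pool.Agent.Lib.E1
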