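import Pool.Agent.Lib.E1.KBlue
import Pool.Agent.Lib.PK1.Loc11
import Pool.Agent.Lib.PK1.Const94B

/-! Block ORB: centres of valuation rings with the same restriction are conjugate. -/

open Pool.Agent.Lib.PK1 Polynomial

namespace Pool.Agent.Lib.E1

namespace ORB

variable {K L₀ L ι : Type} [Field K] [Field L₀] [Field L] [Algebra K L] [Algebra L₀ L]
  {W W' : ValuationSubring L} {z z' : L} {c c' : K}

omit [Algebra L₀ L] in
theorem comap_lt (f : L₀ →+* L) (W : ValuationSubring L) (b : L₀) :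
    (W.comap f).valuation b < 1 ↔ W.valuation (f b) < 1 := by
  rw [← ValuationSubring.mem_nonunits_iff, ← ValuationSubring.mem_nonunits_iff,
    ValuationSubring.mem_nonunits_iff_or, ValuationSubring.mem_nonunits_iff_or,
    ValuationSubring.mem_comap, map_inv₀, map_eq_zero]

theorem tr (h : W.comap (algebraMap L₀ L) = W'.comap (algebraMap L₀ L)) (b : L₀) :
    W.valuation (algebraMap L₀ L b) < 1 ↔ W'.valuation (algebraMap L₀ L b) < 1 := by
  rw [← comap_lt, ← comap_lt, h]

/-- The residue of `z` is the constant `c`. -/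
def Nr (W : ValuationSubring L) (z : L) (c : K) : Prop := W.valuation (z - algebraMap K L c) < 1

theorem nr_const (c : K) : Nr W (algebraMap K L c) c := by simp [Nr]

theorem nr_zero : Nr W z (0 : K) ↔ W.valuation z < 1 := by rw [Nr, map_zero, sub_zero]

theorem Nr.add (h : Nr W z c) (h' : Nr W z' c') : Nr W (z + z') (c + c') := by
  rw [Nr, map_add, add_sub_add_comm]
  exact W.valuation.map_add_lt h h'

theorem Nr.sum {α : Type} (s : Finset α) {f : α → L} {g : α → K} (h : ∀ j, Nr W (f j) (g j)) :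
    Nr W (∑ j ∈ s, f j) (∑ j ∈ s, g j) := by
  rw [Nr, map_sum, ← Finset.sum_sub_distrib]
  exact W.valuation.map_sum_lt one_ne_zero fun j _ => h j

variable (hK : ∀ c : K, c ≠ 0 → IsOfFinOrder c)
include hK

theorem const_le (c : K) : W.valuation (algebraMap K L c) ≤ 1 :=
  (W.valuation_le_one_iff _).2 (CONST.const_mem hK W c)

theorem Nr.le (h : Nr W z c) : W.valuation z ≤ 1 := by
  have := W.valuation.map_add_le (le_of_lt h) (const_le hK c)
  rwa [sub_add_cancel] at this

theorem Nr.mul (h : Nr W z c) (h' : Nr W z' c') : Nr W (z * z') (c * c') := by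
  rw [Nr, map_mul, show z * z' - algebraMap K L c * algebraMap K L c' =
    z * (z' - algebraMap K L c') + (z - algebraMap K L c) * algebraMap K L c' by ring]
  refine W.valuation.map_add_lt ?_ ?_ <;> rw [map_mul]
  · exact (mul_le_of_le_one_left' (h.le hK)).trans_lt h'
  · exact (mul_le_of_le_one_right' (const_le hK c')).trans_lt h

theorem Nr.pow (h : Nr W z c) (n : ℕ) : Nr W (z ^ n) (c ^ n) := by
  induction n with
  | zero => simp [Nr]
  | succ n ih => rw [pow_succ, pow_succ]; exact ih.mul hK h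

theorem Nr.zero (h : Nr W z c) (h' : W.valuation z < 1) : c = 0 := by
  have h1 := W.valuation.map_sub_lt h' h
  rw [sub_sub_cancel, ← ValuationSubring.mem_nonunits_iff, ValuationSubring.mem_nonunits_iff_or,
    map_eq_zero, ← map_inv₀] at h1
  exact h1.resolve_right (not_not.2 (CONST.const_mem hK W _))

theorem Nr.uniq (h : Nr W z c) (h' : Nr W z c') : c = c' := by
  have h1 := W.valuation.map_sub_lt h' h
  rw [sub_sub_sub_cancel_left, ← map_sub] at h1
  exact sub_eq_zero.1 ((nr_const _).zero hK h1)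

theorem Nr.poly {R : Type} [CommRing R] [Algebra R L] (h : Nr W z c) (P : R[X])
    (he : ∀ j, algebraMap R L (P.coeff j) ∈ Set.range (algebraMap K L)) :
    W.valuation (aeval z P) < 1 ↔ aeval (algebraMap K L c) P = 0 := by
  choose e he using he
  have h1 : Nr W (aeval z P) (∑ j ∈ Finset.range (P.natDegree + 1), e j * c ^ j) := by
    rw [aeval_eq_sum_range]
    exact Nr.sum _ fun j => by
      rw [Algebra.smul_def, ← he]; exact (nr_const _).mul hK (h.pow hK j)
  have h2 : aeval (algebraMap K L c) P =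
      algebraMap K L (∑ j ∈ Finset.range (P.natDegree + 1), e j * c ^ j) := by
    rw [aeval_eq_sum_range, map_sum]
    exact Finset.sum_congr rfl fun j _ => by rw [Algebra.smul_def, map_mul, he, map_pow]
  rw [h2, map_eq_zero]
  exact ⟨h1.zero hK, fun h0 => nr_zero.1 (h0 ▸ h1)⟩

theorem nr_aeval {u : ι → L} {a : ι → K} (h : ∀ j, Nr W (u j) (a j)) (r : MvPolynomial ι K) :
    Nr W (MvPolynomial.aeval u r) (MvPolynomial.eval a r) := by
  induction r using MvPolynomial.induction_on with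
  | C c => simpa using nr_const c
  | add p q hp hq => rw [map_add, map_add]; exact hp.add hq
  | mul_X p j hp => simpa using hp.mul hK (h j)

theorem cen_of_nr {Y : ι → L} {i : ι} {a : ι → K}
    (h : ∀ j, Nr W (Y j / Y i) (a j)) {x : Pt K ι} (hc : c ≠ 0)
    (hx : x.rep = fun j => c * a j) : On Y x ∧ Cen Y x W := by
  have k1 : ∀ {d r}, MvPolynomial.IsHomogeneous r d →
      Nr W (MvPolynomial.aeval Y r / Y i ^ d) (MvPolynomial.eval a r) := fun hr =>
    L11.aeval_div hr (Y i) Y ▸ nr_aeval hK h _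
  have k2 : ∀ {d r}, MvPolynomial.IsHomogeneous r d →
      (MvPolynomial.eval x.rep r = 0 ↔ MvPolynomial.eval a r = 0) := fun hr => by
    rw [hx, L11.eval_mul_left hr]; simp [hc]
  have k3 : ∀ {z d} {r s : MvPolynomial ι K}, s.IsHomogeneous d → MvPolynomial.eval x.rep s ≠ 0 →
      z * MvPolynomial.aeval Y s = MvPolynomial.aeval Y r →
      W.valuation z = W.valuation (MvPolynomial.aeval Y r / Y i ^ d) := fun hs h0 e => by
    rw [← e, mul_div_assoc, map_mul, ((k1 hs).le hK).eq_of_not_lt fun h1 =>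
      h0 ((k2 hs).2 ((k1 hs).zero hK h1)), mul_one]
  refine ⟨fun d r hr h0 => (k2 hr).2 ((k1 hr).zero hK (by simp [h0])), ?_, ?_⟩
  · rintro z ⟨d, r, s, hr, hs, h0, e⟩
    rw [← W.valuation_le_one_iff, k3 hs h0 e]
    exact (k1 hr).le hK
  · rintro z ⟨d, r, s, hr, hs, h0, h1, e⟩
    rw [k3 hs h0 e]
    exact nr_zero.1 ((k2 hr).1 h1 ▸ k1 hr)

omit hK in
theorem nr_of_cen {Y : ι → L} {x : Pt K ι} (hx : On Y x) (hW : Cen Y x W) {i : ι}
    (hi : x.rep i ≠ 0) (j : ι) : Nr W (Y j / Y i) (x.rep j / x.rep i) := by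
  have h1 := MvPolynomial.isHomogeneous_X K i
  have h2 := (MvPolynomial.isHomogeneous_X K j).sub (h1.C_mul (x.rep j / x.rep i))
  refine hW.2 _ (L11.mem_Mx.2 ⟨1, _, _, h2, h1, ?_, ?_, ?_⟩)
  · rwa [MvPolynomial.eval_X]
  · rw [map_sub, map_mul, MvPolynomial.eval_X, MvPolynomial.eval_X, MvPolynomial.eval_C,
      div_mul_cancel₀ _ hi, sub_self]
  · rw [map_sub, map_mul, MvPolynomial.aeval_X, MvPolynomial.aeval_X, MvPolynomial.aeval_C,
      sub_mul, div_mul_cancel₀ _ (L11.y_ne hx hi)]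

theorem normal (h : CE L₀ K L) : Normal L₀ L := by
  have hg := CONST.gen_of_algebra (top_unique fun z _ => h z)
  have hs : ∀ x ∈ Set.range (algebraMap K L),
      IsIntegral L₀ x ∧ ((minpoly L₀ x).map (algebraMap L₀ L)).Splits := by
    rintro _ ⟨c, rfl⟩
    by_cases h0 : c = 0
    · rw [h0, map_zero]; exact ⟨isIntegral_zero, by simp⟩
    have hm := (hK c h0).orderOf_pos
    have hζ := IsPrimitiveRoot.orderOf c
    refine ⟨CONST.integral hm hζ, (X_pow_sub_C_splits_of_isPrimitiveRoot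
      (hζ.map_of_injective (algebraMap K L).injective) (one_pow _)).of_dvd
      (X_pow_sub_C_ne_zero hm _) ?_⟩
    simpa using Polynomial.map_dvd (algebraMap L₀ L) (CONST.minpoly_dvd (L0 := L₀) (L := L) hζ)
  exact normal_iff.2 fun x =>
    ⟨Algebra.adjoin_le (S := integralClosure L₀ L) (fun y hy => (hs y hy).1) (h x),
      IntermediateField.splits_of_mem_adjoin _ _ hs (hg ▸ IntermediateField.mem_top)⟩

/-- Constants with the same lifts are conjugate. -/
theorem exists_aut [Fintype ι] (hce : CE L₀ K L)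
    (h : W.comap (algebraMap L₀ L) = W'.comap (algebraMap L₀ L)) {u : ι → L₀} {a a' : ι → K}
    (ha : ∀ j, Nr W (algebraMap L₀ L (u j)) (a j))
    (ha' : ∀ j, Nr W' (algebraMap L₀ L (u j)) (a' j)) :
    ∃ σ : L ≃ₐ[L₀] L, ∀ j, σ (algebraMap K L (a' j)) = algebraMap K L (a j) := by
  classical
  obtain ⟨ζ, m, hm, hζ, hT⟩ := CONST.exists_prim hK (Finset.univ.image a')
  have : NeZero m := ⟨hm.ne'⟩
  let H : Subgroup Kˣ :=
    { carrier := {g | g ^ m = 1 ∧ ∃ (v : L₀) (c : K), Nr W' (algebraMap L₀ L v) (g : K) ∧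
        Nr W (algebraMap L₀ L v) c}
      one_mem' := ⟨one_pow _, 1, 1, by simp [Nr], by simp [Nr]⟩
      mul_mem' := by
        rintro g g' ⟨h1, v, c, h2, h3⟩ ⟨h4, v', c', h5, h6⟩
        exact ⟨by rw [mul_pow, h1, h4, mul_one], v * v', c * c',
          map_mul (algebraMap L₀ L) v v' ▸ h2.mul hK h5,
          map_mul (algebraMap L₀ L) v v' ▸ h3.mul hK h6⟩
      inv_mem' := by
        rintro g ⟨h1, v, c, h2, h3⟩
        have e : g⁻¹ = g ^ (m - 1) := inv_eq_of_mul_eq_one_right (by
          rw [← pow_succ', Nat.sub_add_cancel hm, h1])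
        exact ⟨by rw [inv_pow, h1, inv_one], v ^ (m - 1), c ^ (m - 1),
          by rw [e, map_pow, Units.val_pow_eq_pow_val]; exact h2.pow hK _,
          map_pow (algebraMap L₀ L) v _ ▸ h3.pow hK _⟩ }
  have : Finite H := Finite.of_injective _
    (Subgroup.inclusion_injective (show H ≤ rootsOfUnity m K from fun g hg => hg.1))
  obtain ⟨⟨g, h1, v, c, h2, h3⟩, hg⟩ := IsCyclic.exists_monoid_generator (α := H)
  have ho := (hK _ g.ne_zero).orderOf_pos
  have hp := IsPrimitiveRoot.orderOf (g : K)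
  have he := CONST.minpoly_coeff (L0 := L₀) (L := L) ho hp
  have h4 := (h2.poly hK _ he).2 (minpoly.aeval _ _)
  rw [aeval_algebraMap_apply, ← tr h, ← aeval_algebraMap_apply, h3.poly hK _ he] at h4
  have := normal hK hce
  obtain ⟨σ, hσ⟩ := minpoly.exists_algEquiv_of_root' (CONST.integral ho hp).isAlgebraic h4
  refine ⟨σ, fun j => ?_⟩
  rcases hT _ (Finset.mem_image_of_mem _ (Finset.mem_univ j)) with h0 | ⟨i, hi⟩
  · rw [h0, (ha j).zero hK ((tr h _).2 (nr_zero.1 (h0 ▸ ha' j))), map_zero, map_zero]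
  have h5 : a' j ^ m = 1 := by rw [hi, ← pow_mul, mul_comm, pow_mul, hζ.pow_eq_one, one_pow]
  have h0 : a' j ≠ 0 := fun h0 => by simp [h0, hm.ne'] at h5
  obtain ⟨n, hn⟩ := hg ⟨Units.mk0 _ h0, Units.ext h5, u j, a j, ha' j, ha j⟩
  have h6 : (g : K) ^ n = a' j := congrArg (fun t : H => ((t : Kˣ) : K)) hn
  have h7 := W'.valuation.map_sub_lt (ha' j) (h6 ▸ h2.pow hK n)
  rw [sub_sub_sub_cancel_right, ← map_pow, ← map_sub, ← tr h] at h7
  have h8 := W.valuation.map_add_lt h7 (h3.pow hK n)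
  rw [map_sub, map_pow, sub_add_sub_cancel] at h8
  rw [(ha j).uniq hK h8, ← h6, map_pow, map_pow, map_pow, hσ]

theorem exists_nr {F : Type} [Field F] [Algebra F K] [Algebra F L₀] [Algebra F L]
    [IsScalarTower F K L] [IsScalarTower F L₀ L] [IsAlgClosure F K]
    (h : W.comap (algebraMap L₀ L) = W'.comap (algebraMap L₀ L)) {u : L₀}
    (hc : Nr W (algebraMap L₀ L u) c) : ∃ c' : K, Nr W' (algebraMap L₀ L u) c' := by
  have := IsAlgClosure.isAlgClosed F (K := K)
  have h1 := (hc.poly hK (minpoly F c) fun j => ⟨_, (IsScalarTower.algebraMap_apply F K L _).symm⟩).2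
    (by rw [aeval_algebraMap_apply, minpoly.aeval, map_zero])
  rw [aeval_algebraMap_apply, tr h, ← aeval_algebraMap_apply, ← aeval_map_algebraMap K,
    (IsAlgClosed.splits _).eq_prod_roots_of_monic
      ((minpoly.monic (Algebra.IsIntegral.isIntegral c)).map _),
    map_multiset_prod, map_multiset_prod] at h1
  by_contra! hn
  refine h1.not_ge (Multiset.one_le_prod_of_one_le fun t ht => ?_)
  simp only [Multiset.map_map, Multiset.mem_map, Function.comp_apply] at ht
  obtain ⟨r, -, rfl⟩ := ht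
  simpa [Nr] using hn r

end ORB

open ORB in
theorem stORB : St_ORB where
  cen F K L₀ L ι _ _ _ _ _ _ _ _ _ _ _ _ _ _ y x W W' hx hW h := by
    have hK := CONST.fin_order F K
    have hi := L11.rep_ix x
    have h1 := L11.y_ne hx hi
    choose a ha using fun j => exists_nr (F := F) hK h (u := y j / y (ix x))
      (map_div₀ (algebraMap L₀ L) _ _ ▸ nr_of_cen hx hW hi j)
    simp only [map_div₀] at ha
    have h0 : a ≠ 0 := fun h0 => by simpa [h0, Nr, div_self h1] using ha (ix x)
    obtain ⟨c, hc, e⟩ := L11.rep_mk h0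
    exact ⟨_, cen_of_nr hK ha hc e⟩
  orb F K L₀ L ι _ _ _ _ _ _ _ _ _ _ _ _ _ _ hce y x x' := by
    rintro ⟨hx, hx', W, W', hW, hW', h⟩
    have hK := CONST.fin_order F K
    have hi := L11.rep_ix x
    have h1 := L11.y_ne hx hi
    have hi' : x'.rep (ix x) ≠ 0 := fun h0 => by
      have h2 := nr_of_cen hx' hW' (L11.rep_ix x') (ix x)
      rw [h0, zero_div, nr_zero, ← map_div₀, ← tr h, map_div₀] at h2
      have h3 := (mul_le_of_le_one_right' ((nr_of_cen hx hW hi (ix x')).le hK)).trans_lt h2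
      rw [← map_mul, div_mul_div_cancel₀ (L11.y_ix hx'), div_self h1, map_one] at h3
      exact h3.false
    obtain ⟨σ, hσ⟩ := exists_aut hK hce h (u := fun j => y j / y (ix x))
      (fun j => map_div₀ (algebraMap L₀ L) _ _ ▸ nr_of_cen hx hW hi j)
      fun j => map_div₀ (algebraMap L₀ L) _ _ ▸ nr_of_cen hx' hW' hi' j
    refine ⟨σ, fun V hV => (cen_of_nr hK (i := ix x) (a := fun j => x'.rep j / x'.rep (ix x))
      (fun j => (comap_lt _ V _).2 ?_) hi' (funext fun j => (mul_div_cancel₀ _ hi').symm)).2⟩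
    change V.valuation (σ _) < 1
    rw [map_sub, hσ, map_div₀, σ.commutes, σ.commutes]
    exact nr_of_cen hx hV hi j

end Pool.Agent.Lib.E1
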