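import Pool.Agent.Lib.E1.PBlue

/-! Closed points of a scheme with a projective model. -/

open AlgebraicGeometry CategoryTheory Order IsLocalRing MvPolynomial Pool.Agent.Lib.PK1
open Pool.Agent.Lib.PK1.Out Pool.Agent.Lib.MP_e39d36_ag

set_option linter.unusedVariables false
set_option linter.unusedSectionVars false
set_option linter.style.haveILetI false

noncomputable section

namespace Pool.Agent.Lib.E1.PPTc

variable {F ι Ω : Type} [Field F] {X : Scheme.{0}} [IsIntegral X]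
  [Algebra F X.functionField] [Fintype ι] [Nonempty ι] {y : ι → X.functionField} [Field Ω]
  [Algebra F Ω] {z : X} {e : X.presheaf.stalk z →+* Ω}

theorem fn_symm (b : OX z) : fn ((eqO z).symm b) = b :=
  congrArg Subtype.val ((eqO z).apply_symm_apply b)

theorem exists_theta (h1 : ∀ a, e a = 0 ↔ a ∈ maximalIdeal _)
    (h2 : ∀ (c : F) a, fn a = algebraMap F _ c → e a = algebraMap F Ω c)
    (B : Subalgebra F X.functionField) (hB : B.toSubring ≤ OX z) :
    ∃ θ : B →ₐ[F] Ω, (∀ (b : B) a, fn a = b → θ b = e a) ∧ ∀ b : B, θ b = 0 ↔ ¬Un (OX z) b := by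
  let t : B →+* X.presheaf.stalk z := (eqO z).symm.toRingHom.comp (Subring.inclusion hB)
  have ht : ∀ b : B, fn (t b) = b := fun b => fn_symm _
  refine ⟨{ e.comp t with commutes' := fun c => h2 c _ (ht _) }, fun b a h => ?_, fun b => ?_⟩
  · exact congrArg e (IsFractionRing.injective _ X.functionField ((ht b).trans h.symm))
  · change e (t b) = 0 ↔ _
    rw [h1, ← ht b, un_OX, mem_maximalIdeal, mem_nonunits_iff]

theorem fin_of_closed (M : Mod F y) (h1 : ∀ a, e a = 0 ↔ a ∈ maximalIdeal _)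
    (h2 : ∀ (c : F) a, fn a = algebraMap F _ c → e a = algebraMap F Ω c) (hz : IsClosed {z}) :
    ∃ S : Subalgebra F Ω, Module.Finite F S ∧ ∀ a, e a ∈ S := by
  haveI := M.sep
  obtain ⟨i, hi, hl⟩ := M.loc z
  obtain ⟨θ, h3, h4⟩ := exists_theta h1 h2 _ hl.1
  obtain ⟨𝔪, h𝔪, hle⟩ := Ideal.exists_le_maximal (RingHom.ker θ) (RingHom.ker_ne_top θ)
  obtain ⟨R, hR, hl', hu⟩ := exists_locP (B := (chart F y i).toSubring) 𝔪
  obtain ⟨z', rfl⟩ := M.pt i hi R hR hl'
  have h5 : z ⤳ z' := OX_le_iff.1 (hl'.le hl.1 fun b hb h => by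
    by_contra h6
    exact (hu ⟨b, hb⟩).1 h (hle ((h4 ⟨b, hb⟩).2 h6)))
  obtain rfl : z' = z := h5.mem_closed hz rfl
  have h6 : ∀ b ∈ 𝔪, θ b = 0 := fun b hb => (h4 b).2 fun h => (hu b).1 h hb
  letI := Ideal.Quotient.field 𝔪
  haveI : Algebra.FiniteType F (chart F y i) :=
    Algebra.FiniteType.adjoin_of_finite (Set.finite_range _)
  haveI := finite_of_finite_type_of_isJacobsonRing F (chart F y i ⧸ 𝔪)
  let θ' := Ideal.Quotient.liftₐ 𝔪 θ h6
  refine ⟨θ'.range, Module.Finite.of_surjective θ'.rangeRestrict.toLinearMap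
    θ'.rangeRestrict_surjective, fun a => ?_⟩
  obtain ⟨b, hb, h7, h8⟩ := hl.2 (fn a) ⟨a, rfl⟩
  obtain ⟨a', ha'⟩ := hl.1 hb
  have h9 : θ ⟨b, hb⟩ ≠ 0 := fun h => (h4 _).1 h h7
  refine ⟨Ideal.Quotient.mk 𝔪 ⟨_, h8⟩ / Ideal.Quotient.mk 𝔪 ⟨b, hb⟩, ?_⟩
  change θ' _ = _
  rw [map_div₀]
  change θ _ / θ _ = _
  rw [div_eq_iff h9, h3 ⟨b, hb⟩ a' ha', h3 ⟨_, h8⟩ (a' * a) ((map_mul _ _ _).trans (congrArg (· * fn a) ha')),
    map_mul, mul_comm]

theorem closed_of_alg (M : Mod F y) (h1 : ∀ a, e a = 0 ↔ a ∈ maximalIdeal _)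
    (h2 : ∀ (c : F) a, fn a = algebraMap F _ c → e a = algebraMap F Ω c)
    (h : ∀ a, IsAlgebraic F (e a)) : IsClosed {z} := by
  haveI := M.sep
  refine isClosed_of_closure_subset fun z' hz' => ?_
  have hs : z ⤳ z' := specializes_iff_mem_closure.2 hz'
  obtain ⟨i, hi, hl⟩ := M.loc z'
  obtain ⟨θ, h3, h4⟩ := exists_theta h1 h2 _ (hl.1.trans (OX_le hs))
  haveI : Algebra.IsIntegral F θ.range := ⟨by
    rintro ⟨_, b, rfl⟩
    obtain ⟨a, ha⟩ := OX_le hs (hl.1 b.2)
    refine (isIntegral_algHom_iff θ.range.val Subtype.val_injective).1 ?_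
    change IsIntegral F (θ b)
    rw [h3 b a ha]
    exact (h a).isIntegral⟩
  have hf : IsField θ.range := isField_of_isIntegral_of_isField' (Field.toIsField F)
  have h5 : ∀ b : chart F y i, Un (OX z) b → Un (OX z') b := fun b hb => by
    have h6 : θ.rangeRestrict b ≠ 0 := fun h6 => (h4 b).1 (congrArg Subtype.val h6) hb
    obtain ⟨⟨_, c, rfl⟩, hc⟩ := hf.mul_inv_cancel h6
    have h7 : θ (1 - b * c) = 0 := by
      rw [map_sub, map_one, map_mul, sub_eq_zero]
      exact (congrArg Subtype.val hc).symm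
    have h8 := (isLoc_of_isLocalRing (R := OX z') _ (hl.1 (b * c).2)).resolve_right
      fun h9 => (h4 _).1 h7 (h9.mono (OX_le hs))
    exact Un.of_mul h8 (hl.1 b.2) (hl.1 c.2)
  have hd : Dom (OX z') (OX z) := ⟨OX_le hs, fun u hu h6 => by
    obtain ⟨b, hb, h7, h8⟩ := hl.2 u hu
    exact (h5 ⟨_, h8⟩ ((h7.mono (OX_le hs)).mul h6)).of_mul' (hl.1 hb) hu⟩
  exact ((specializes_of_dom isLoc_of_isLocalRing hd le_rfl).antisymm hs).eq

theorem const {w : ι → Ω} (h : At F y w z e) (c : F) (a : X.presheaf.stalk z)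
    (ha : fn a = algebraMap F _ c) : e a = algebraMap F Ω c := by
  obtain ⟨b, h1, h2⟩ := h.ev 0 (C c) 1 (isHomogeneous_C _ _) (isHomogeneous_one _ _) (by simp)
  simp only [map_one, mul_one, aeval_C] at h1 h2
  rw [← h2]
  exact congrArg e (IsFractionRing.injective _ X.functionField (ha.trans h1.symm))

theorem closed : ∀ (F ι Ω : Type) [Field F] (X : Scheme.{0}) [IsIntegral X]
    [Algebra F X.functionField] [Fintype ι] [Nonempty ι] (y : ι → X.functionField) [Field Ω]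
    [Algebra F Ω], Mod F y → ∀ (w : ι → Ω) z e, At F y w z e →
      (IsClosed {z} ↔ ∀ a, IsAlgebraic F (e a)) := by
  intro F ι Ω _ X _ _ _ _ y _ _ M w z e h
  refine ⟨fun hz a => ?_, closed_of_alg M h.loc (const h)⟩
  obtain ⟨S, h1, h2⟩ := fin_of_closed M h.loc (const h) hz
  exact (Algebra.IsAlgebraic.isAlgebraic (⟨_, h2 a⟩ : S)).algHom S.val

theorem fin : ∀ (F ι : Type) [Field F] [Finite F] (X : Scheme.{0}) [IsIntegral X]
    [Algebra F X.functionField] [Fintype ι] [Nonempty ι] (y : ι → X.functionField), Mod F y →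
      ∀ z : X, IsClosed {z} → Finite (X.residueField z) := by
  intro F ι _ _ X _ _ _ _ y M z hz
  obtain ⟨i, hi, hl⟩ := M.loc z
  let ψ : F →+* X.presheaf.stalk z := ((eqO z).symm.toRingHom.comp (Subring.inclusion hl.1)).comp
    (algebraMap F (chart F y i))
  have hψ : ∀ c, fn (ψ c) = algebraMap F _ c := fun c => fn_symm _
  letI : Algebra F (ResidueField (X.presheaf.stalk z)) := ((residue _).comp ψ).toAlgebra
  obtain ⟨S, h1, h2⟩ := fin_of_closed (e := residue (X.presheaf.stalk z)) M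
    (fun a => residue_eq_zero_iff a) (fun c a h => congrArg (residue _)
      (IsFractionRing.injective _ X.functionField (h.trans (hψ c).symm))) hz
  haveI : Finite S := Module.finite_of_finite F
  refine Finite.of_surjective (β := ResidueField (X.presheaf.stalk z)) S.val fun u => ?_
  obtain ⟨a, rfl⟩ := residue_surjective u
  exact ⟨⟨_, h2 a⟩, rfl⟩

end Pool.Agent.Lib.E1.PPTc
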